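import Pool.Agent.N495.TS.StmU

/-!
TS/TAY (helper933 for helper495): lifting simple zeros.
-/

set_option autoImplicit false

namespace Pool.Agent.N933.TS

open Pool.Agent.N495.TS MvPolynomial

theorem aeval_cast {ι : Type} {S : Type} [CommRing S] (x : ι → ℤ) (D : MvPolynomial ι ℤ) :
    aeval (fun i => ((x i : ℤ) : S)) D = ((eval x D : ℤ) : S) := by
  induction D using MvPolynomial.induction_on with
  | C a => simp
  | add f g hf hg => simp [hf, hg]
  | mul_X f i hf => simp [hf]

/-- Taylor's formula of order one -/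
theorem taylor {ι : Type} [DecidableEq ι] {S : Type} [CommRing S] (π : S) (hπ : π * π = 0)
    (r : ι → S) (i0 : ι) (V : MvPolynomial ι ℤ) :
    aeval (r + Pi.single i0 π) V = aeval r V + π * aeval r (pderiv i0 V) := by
  induction V using MvPolynomial.induction_on with
  | C a => simp
  | add f g hf hg =>
    simp only [map_add, hf, hg]
    ring
  | mul_X f j hf =>
    rw [map_mul, map_mul, hf, aeval_X, aeval_X, Derivation.leibniz, pderiv_X]
    simp only [smul_eq_mul, map_add, map_mul, aeval_X, Pi.add_apply]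
    by_cases h : j = i0
    · subst h
      simp only [Pi.single_eq_same, map_one, mul_one]
      linear_combination (aeval r (pderiv j f)) * hπ
    · rw [Pi.single_eq_of_ne h, Pi.single_eq_of_ne h]
      simp only [map_zero, mul_zero, add_zero]
      ring

theorem t_TAY : S_TAY := by
  intro ι _ _ V p hp c _ hex
  obtain ⟨i0, hi0⟩ := hex
  have hp0 : 0 < p := hp.pos
  have hne : NeZero (p ^ 2) := ⟨by positivity⟩
  have hpp : ((p : ℤ) : ZMod (p ^ 2)) * ((p : ℤ) : ZMod (p ^ 2)) = 0 := by
    rw [← Int.cast_mul, ZMod.intCast_zmod_eq_zero_iff_dvd]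
    push_cast
    rw [sq]
  set F : Set (ι → ZMod (p ^ 2)) :=
    {r | ∀ i, ∃ z : ℤ, r i = ((c i + p * z : ℤ) : ZMod (p ^ 2))} with hF
  set NZ : Set (ι → ZMod (p ^ 2)) :=
    {r | (∀ i, ∃ z : ℤ, r i = ((c i + p * z : ℤ) : ZMod (p ^ 2))) ∧ aeval r V ≠ 0} with hNZ
  set Zr : Set (ι → ZMod (p ^ 2)) :=
    {r | (∀ i, ∃ z : ℤ, r i = ((c i + p * z : ℤ) : ZMod (p ^ 2))) ∧ aeval r V = 0} with hZr
  have h1 : p ^ Fintype.card ι ≤ F.ncard := by
    let f : (ι → Fin p) → (ι → ZMod (p ^ 2)) := fun w i =>
      ((c i + p * ((w i : ℕ) : ℤ) : ℤ) : ZMod (p ^ 2))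
    have hf : Function.Injective f := by
      intro w w' h
      funext i
      have h2 := congrFun h i
      simp only [f] at h2
      rw [ZMod.intCast_eq_intCast_iff_dvd_sub] at h2
      have h3 : (c i + (p : ℤ) * ((w' i : ℕ) : ℤ)) - (c i + p * ((w i : ℕ) : ℤ)) =
          p * (((w' i : ℕ) : ℤ) - ((w i : ℕ) : ℤ)) := by ring
      rw [h3] at h2
      push_cast at h2
      rw [sq] at h2
      have h4 := Int.dvd_of_mul_dvd_mul_left (by exact_mod_cast hp0.ne') h2
      obtain ⟨k, hk⟩ := h4
      have h5 := (w i).isLt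
      have h6 := (w' i).isLt
      have h7 : k = 0 := by
        have a1 : (p : ℤ) * k < p * 1 := by rw [← hk]; omega
        have a2 : (p : ℤ) * (-1) < p * k := by rw [← hk]; omega
        have hpz : (0 : ℤ) < p := by exact_mod_cast hp0
        have b1 := lt_of_mul_lt_mul_left a1 hpz.le
        have b2 := lt_of_mul_lt_mul_left a2 hpz.le
        omega
      rw [h7, mul_zero] at hk
      apply Fin.ext
      omega
    have h2 : Set.range f ⊆ F := by
      rintro _ ⟨w, rfl⟩ i
      exact ⟨_, rfl⟩
    calc p ^ Fintype.card ι = Nat.card (ι → Fin p) := by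
          rw [Nat.card_eq_fintype_card, Fintype.card_fun, Fintype.card_fin]
      _ = (Set.range f).ncard := by
          rw [← Set.image_univ, Set.ncard_image_of_injective _ hf, Set.ncard_univ]
      _ ≤ F.ncard := Set.ncard_le_ncard h2 (Set.toFinite _)
  have h2 : F.ncard ≤ Zr.ncard + NZ.ncard := by
    refine (Set.ncard_le_ncard (t := Zr ∪ NZ) ?_ (Set.toFinite _)).trans (Set.ncard_union_le _ _)
    intro r hr
    by_cases h : aeval r V = 0
    · exact Or.inl ⟨hr, h⟩
    · exact Or.inr ⟨hr, h⟩
  have h3 : Zr.ncard ≤ NZ.ncard := by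
    refine Set.ncard_le_ncard_of_injOn
      (fun r => r + Pi.single i0 (((p : ℤ) : ZMod (p ^ 2)))) ?_ ?_ (Set.toFinite _)
    · rintro r ⟨hr, hr0⟩
      refine ⟨fun i => ?_, ?_⟩
      · obtain ⟨z, hz⟩ := hr i
        by_cases h : i = i0
        · subst h
          refine ⟨z + 1, ?_⟩
          simp only [Pi.add_apply, Pi.single_eq_same, hz]
          push_cast
          ring
        · refine ⟨z, ?_⟩
          simp only [Pi.add_apply, Pi.single_eq_of_ne h, add_zero, hz]
      · rw [taylor _ hpp, hr0, zero_add]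
        choose z hz using hr
        have h4 : r = fun i => ((c i + p * z i : ℤ) : ZMod (p ^ 2)) := funext hz
        rw [h4, aeval_cast (fun i => c i + p * z i), ← Int.cast_mul]
        intro h5
        rw [ZMod.intCast_zmod_eq_zero_iff_dvd] at h5
        push_cast at h5
        rw [sq] at h5
        have h6 := Int.dvd_of_mul_dvd_mul_left (by exact_mod_cast hp0.ne') h5
        rw [← ZMod.intCast_zmod_eq_zero_iff_dvd, ← aeval_cast] at h6
        have h7 : (fun i => (((c i + p * z i : ℤ)) : ZMod p)) = fun i => ((c i : ℤ) : ZMod p) := by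
          funext i
          push_cast
          simp
        rw [h7, aeval_cast, ZMod.intCast_zmod_eq_zero_iff_dvd] at h6
        exact hi0 h6
    · intro r _ r' _ h
      exact add_right_cancel h
  omega

end Pool.Agent.N933.TS
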